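import Pool.Agent.Helper37.BP.Defs2

/-! Part PO of the blueprint BAP2: the push-out and its cotype. -/

open MeasureTheory
open scoped ENNReal NNReal

set_option maxSynthPendingDepth 3

namespace Pool.Agent.Helper49.BAP

open Pool.Agent.BAPp (sgn weakNorm gNorm FiniteRank)
open Pool.Agent.Helper37.BP

lemma abs_sgn (b : Bool) : |sgn b| = 1 := by cases b <;> simp [sgn]

section
variable {X B : Type} [NormedAddCommGroup X] [NormedSpace ℝ X] [CompleteSpace X]
    [NormedAddCommGroup B] [NormedSpace ℝ B] [CompleteSpace B]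
    (S : Submodule ℝ B) (u : S →L[ℝ] X)

/-- the graph map -/
noncomputable def grLin : S →ₗ[ℝ] WithLp 1 (X × B) where
  toFun s := WithLp.toLp 1 (u s, -(s : B))
  map_add' s t := by
    rw [← WithLp.toLp_add]
    congr 1
    ext
    · simp
    · simp [add_comm]
  map_smul' c s := by
    rw [← WithLp.toLp_smul]
    congr 1
    ext
    · simp
    · simp

lemma norm_grLin (s : S) : ‖grLin S u s‖ = ‖u s‖ + ‖s‖ := by
  rw [WithLp.prod_norm_eq_of_L1]
  show ‖u s‖ + ‖-(s : B)‖ = _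
  rw [norm_neg]
  rfl

/-- the graph as a submodule -/
noncomputable def grN : Submodule ℝ (WithLp 1 (X × B)) := LinearMap.range (grLin S u)

lemma isClosed_grN (hS : IsClosed (S : Set B)) : IsClosed (grN S u : Set (WithLp 1 (X × B))) := by
  haveI : CompleteSpace S := hS.completeSpace_coe
  have hb : ∀ s : S, ‖grLin S u s‖ ≤ (‖u‖ + 1) * ‖s‖ := by
    intro s
    rw [norm_grLin, add_mul, one_mul]
    exact add_le_add (u.le_opNorm s) le_rfl
  let L : S →L[ℝ] WithLp 1 (X × B) := (grLin S u).mkContinuous _ hb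
  have hanti : AntilipschitzWith 1 L := by
    refine AddMonoidHomClass.antilipschitz_of_bound L fun s => ?_
    rw [NNReal.coe_one, one_mul]
    show ‖s‖ ≤ ‖grLin S u s‖
    rw [norm_grLin]
    linarith [norm_nonneg (u s)]
  have h := hanti.isClosed_range L.uniformContinuous
  have h2 : (grN S u : Set (WithLp 1 (X × B))) = Set.range L := by
    rw [grN, LinearMap.coe_range]
    rfl
  rw [h2]
  exact h

end

theorem pushout (r C CB K η : ℝ) (hr : 1 ≤ r) (hC : 0 ≤ C) (hCB : 0 ≤ CB) (hK : 0 ≤ K)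
    (hη : 0 ≤ η) (hη1 : η ≤ 1) (hcond : CB * K + C * η * (1 + K) ≤ C) {X B : Type}
    [NormedAddCommGroup X] [NormedSpace ℝ X] [CompleteSpace X]
    [NormedAddCommGroup B] [NormedSpace ℝ B] [CompleteSpace B]
    (hX : Cot r C X) (hB : Cot r CB B) (S : Submodule ℝ B) (hS : IsClosed (S : Set B))
    (hL : RadLift K S) (u : S →L[ℝ] X) (hu : ‖u‖ ≤ η) :
    ∃ (X' : Type) (_ : NormedAddCommGroup X') (_ : NormedSpace ℝ X') (_ : CompleteSpace X')
      (j : X →ₗᵢ[ℝ] X') (k : B →L[ℝ] X'), Cot r C X' ∧ ‖k‖ ≤ 1 ∧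
      (∀ s : S, k (s : B) = j (u s)) ∧
      ∀ (Z : Type) [NormedAddCommGroup Z] [NormedSpace ℝ Z] (Ψ : X →L[ℝ] Z) (v : B →L[ℝ] Z),
        ‖Ψ‖ ≤ 1 → ‖v‖ ≤ 1 → (∀ s : S, v (s : B) = Ψ (u s)) →
        ∃ Ψ' : X' →L[ℝ] Z, ‖Ψ'‖ ≤ 1 ∧ ∀ x, Ψ' (j x) = Ψ x := by
  classical
  have hus : ∀ s : S, ‖u s‖ ≤ η * ‖s‖ := fun s =>
    (u.le_opNorm s).trans (mul_le_mul_of_nonneg_right hu (norm_nonneg _))
  set N := grN S u with hN
  haveI hcl : IsClosed (N : Set (WithLp 1 (X × B))) := isClosed_grN S u hS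
  let V := WithLp 1 (X × B)
  let mk : V →ₗ[ℝ] (V ⧸ N) := N.mkQ
  have hmk_le : ∀ v : V, ‖mk v‖ ≤ ‖v‖ := fun v => Submodule.Quotient.norm_mk_le N v
  have hmk_lt : ∀ (y : V ⧸ N) (ε : ℝ), 0 < ε → ∃ v : V, mk v = y ∧ ‖v‖ < ‖y‖ + ε :=
    fun y ε hε => Submodule.Quotient.norm_mk_lt y hε
  have hmk_eq : ∀ v w : V, mk v = mk w → ∃ s : S, v.fst - w.fst = u s ∧ v.snd - w.snd = -(s : B) := by
    intro v w h
    have h1 : v - w ∈ N := (Submodule.Quotient.eq N).1 h
    obtain ⟨s, hs⟩ := h1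
    refine ⟨s, ?_, ?_⟩
    · have := congrArg (fun z : V => z.fst) hs
      exact this.symm
    · have := congrArg (fun z : V => z.snd) hs
      exact this.symm
  have hmk_s : ∀ s : S, mk (WithLp.toLp 1 (u s, -(s : B))) = 0 := by
    intro s
    exact (Submodule.Quotient.mk_eq_zero N).2 ⟨s, rfl⟩
  have hnorm : ∀ (x : X) (b : B), ‖(WithLp.toLp 1 (x, b) : V)‖ = ‖x‖ + ‖b‖ := by
    intro x b
    exact WithLp.prod_norm_eq_of_L1 _
  -- the maps
  let jl : X →ₗ[ℝ] (V ⧸ N) :=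
    { toFun := fun x => mk (WithLp.toLp 1 (x, 0))
      map_add' := fun x y => by
        rw [← map_add, ← WithLp.toLp_add]; simp
      map_smul' := fun c x => by
        rw [RingHom.id_apply, ← map_smul, ← WithLp.toLp_smul]; simp }
  let kl : B →ₗ[ℝ] (V ⧸ N) :=
    { toFun := fun x => mk (WithLp.toLp 1 (0, x))
      map_add' := fun x y => by
        rw [← map_add, ← WithLp.toLp_add]; simp
      map_smul' := fun c x => by
        rw [RingHom.id_apply, ← map_smul, ← WithLp.toLp_smul]; simp }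
  have hj : ∀ x, ‖jl x‖ = ‖x‖ := by
    intro x
    apply le_antisymm
    · refine (hmk_le _).trans ?_
      rw [hnorm, norm_zero, add_zero]
    · refine le_of_forall_pos_le_add fun ε hε => ?_
      obtain ⟨v, hv, hv2⟩ := hmk_lt (jl x) ε hε
      obtain ⟨s, hs1, hs2⟩ := hmk_eq _ _ hv
      have e1 : v.fst - x = u s := hs1
      have e2 : v.snd - 0 = -(s : B) := hs2
      rw [sub_zero] at e2
      have h3 : ‖v‖ = ‖v.fst‖ + ‖v.snd‖ := WithLp.prod_norm_eq_of_L1 v
      have h4 : ‖v.snd‖ = ‖s‖ := by rw [e2, norm_neg]; rfl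
      have h5 : ‖x‖ ≤ ‖v.fst‖ + ‖u s‖ := by
        have : x = v.fst - u s := by rw [← e1]; abel
        rw [this]
        exact norm_sub_le _ _
      have h6 := hus s
      have h7 : η * ‖s‖ ≤ ‖s‖ := by
        have := mul_le_mul_of_nonneg_right hη1 (norm_nonneg s)
        rwa [one_mul] at this
      linarith
  let j : X →ₗᵢ[ℝ] (V ⧸ N) := ⟨jl, hj⟩
  let k : B →L[ℝ] (V ⧸ N) := kl.mkContinuous 1 (fun b => by
    refine (hmk_le _).trans ?_
    rw [hnorm, norm_zero, zero_add, one_mul])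
  refine ⟨V ⧸ N, inferInstance, inferInstance, inferInstance, j, k, ?_, ?_, ?_, ?_⟩
  · -- cotype
    intro n y
    have hrp : 0 < r := by linarith
    set F : (Fin n → Bool) → (V ⧸ N) := fun ω => ∑ i, sgn (ω i) • y i with hF
    have hpow : (0 : ℝ) < 2 ^ n := by positivity
    suffices H : ∀ ε : ℝ, 0 < ε → (∑ i, ‖y i‖ ^ r) ^ (1 / r) ≤
        C * ((∑ ω : Fin n → Bool, (‖F ω‖ + ε)) / 2 ^ n) by
      by_cases hC0 : C = 0
      · have := H 1 one_pos
        rw [hC0, zero_mul] at this ⊢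
        exact this
      · have hCpos : 0 < C := lt_of_le_of_ne hC (Ne.symm hC0)
        refine le_of_forall_pos_le_add fun δ hδ => ?_
        refine (H (δ / C) (div_pos hδ hCpos)).trans (le_of_eq ?_)
        rw [Finset.sum_add_distrib, Finset.sum_const, Finset.card_univ]
        have hcard : Fintype.card (Fin n → Bool) = 2 ^ n := by simp
        rw [hcard, nsmul_eq_mul]
        push_cast
        have h2 : (2 : ℝ) ^ n ≠ 0 := hpow.ne'
        have h3 : C * ((∑ ω : Fin n → Bool, ‖F ω‖ + 2 ^ n * (δ / C)) / 2 ^ n) =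
            C * ((∑ ω : Fin n → Bool, ‖F ω‖) / 2 ^ n) + C * (2 ^ n * (δ / C) / 2 ^ n) := by
          rw [add_div, mul_add]
        rw [h3]
        congr 1
        field_simp
    intro ε hε
    choose v hv1 hv2 using fun ω => hmk_lt (F ω) ε hε
    choose w hw using fun i => (hmk_lt (y i) 1 one_pos)
    have hw1 : ∀ i, mk (w i) = y i := fun i => (hw i).1
    have hex : ∀ ω, ∃ s : S, (v ω).fst - (∑ i, sgn (ω i) • w i).fst = u s ∧
        (v ω).snd - (∑ i, sgn (ω i) • w i).snd = -(s : B) := by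
      intro ω
      refine hmk_eq _ _ ?_
      rw [hv1, map_sum, hF]
      simp only [map_smul, hw1]
    choose s hs1 hs2 using hex
    have hfst : ∀ ω : Fin n → Bool, (∑ i, sgn (ω i) • w i).fst = ∑ i, sgn (ω i) • (w i).fst := by
      intro ω
      exact map_sum (WithLp.fstₗ 1 ℝ X B) _ _ |>.trans (by simp)
    have hsnd : ∀ ω : Fin n → Bool, (∑ i, sgn (ω i) • w i).snd = ∑ i, sgn (ω i) • (w i).snd := by
      intro ω
      exact map_sum (WithLp.sndₗ 1 ℝ X B) _ _ |>.trans (by simp)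
    obtain ⟨σ, hσ⟩ := hL n (fun i => (w i).snd) (fun ω => -(s ω))
    set b' : Fin n → B := fun i => (w i).snd + (σ i : B) with hb'
    set x' : Fin n → X := fun i => (w i).fst - u (σ i) with hx'
    have hB1 : ∀ ω, ∑ i, sgn (ω i) • (w i).snd + ((-(s ω) : S) : B) = (v ω).snd := by
      intro ω
      have := hs2 ω
      rw [hsnd] at this
      rw [Submodule.coe_neg, ← this]
      abel
    have hσ' : ∑ ω : Fin n → Bool, ‖∑ i, sgn (ω i) • b' i‖ ≤ K * ∑ ω, ‖(v ω).snd‖ := by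
      refine hσ.trans (le_of_eq ?_)
      congr 1
      exact Finset.sum_congr rfl fun ω _ => by rw [hB1]
    have hyr : ∀ i, ‖y i‖ ≤ ‖x' i‖ + ‖b' i‖ := by
      intro i
      have h1 : y i = mk (WithLp.toLp 1 (x' i, b' i)) := by
        have h2 : (WithLp.toLp 1 (x' i, b' i) : V) = w i - WithLp.toLp 1 (u (σ i), -(σ i : B)) := by
          apply (WithLp.equiv 1 (X × B)).injective
          ext
          · rfl
          · show (w i).snd + (σ i : B) = (w i).snd - -(σ i : B)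
            abel
        rw [h2, map_sub, hmk_s, sub_zero, hw1]
      rw [h1]
      refine (hmk_le _).trans ?_
      rw [hnorm]
    have hx'' : ∀ ω, ∑ i, sgn (ω i) • x' i =
        (v ω).fst - u (s ω + ∑ i, sgn (ω i) • σ i) := by
      intro ω
      have := hs1 ω
      rw [hfst] at this
      rw [map_add, map_sum, ← this]
      simp only [map_smul, hx', smul_sub, Finset.sum_sub_distrib]
      abel
    have hsσ : ∀ ω, ((s ω + ∑ i, sgn (ω i) • σ i : S) : B) = (∑ i, sgn (ω i) • b' i) - (v ω).snd := by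
      intro ω
      have := hB1 ω
      rw [← this]
      simp only [hb', smul_add, Finset.sum_add_distrib, Submodule.coe_add, Submodule.coe_sum,
        Submodule.coe_smul, Submodule.coe_neg]
      abel
    have hx3 : ∀ ω, ‖∑ i, sgn (ω i) • x' i‖ ≤
        ‖(v ω).fst‖ + η * (‖∑ i, sgn (ω i) • b' i‖ + ‖(v ω).snd‖) := by
      intro ω
      rw [hx'']
      refine (norm_sub_le _ _).trans (add_le_add le_rfl ?_)
      refine (hus _).trans (mul_le_mul_of_nonneg_left ?_ hη)
      have : ‖(s ω + ∑ i, sgn (ω i) • σ i : S)‖ = ‖(∑ i, sgn (ω i) • b' i) - (v ω).snd‖ := by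
        rw [← hsσ]; rfl
      rw [this]
      exact norm_sub_le _ _
    have hMink : (∑ i, ‖y i‖ ^ r) ^ (1 / r) ≤
        (∑ i, ‖x' i‖ ^ r) ^ (1 / r) + (∑ i, ‖b' i‖ ^ r) ^ (1 / r) := by
      refine le_trans ?_ (Real.Lp_add_le_of_nonneg (s := Finset.univ) (f := fun i => ‖x' i‖)
        (g := fun i => ‖b' i‖) hr (fun i _ => norm_nonneg _) (fun i _ => norm_nonneg _))
      refine Real.rpow_le_rpow (Finset.sum_nonneg fun i _ => by positivity) ?_ (by positivity)
      refine Finset.sum_le_sum fun i _ => ?_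
      exact Real.rpow_le_rpow (norm_nonneg _) (hyr i) hrp.le
    have h1 := hX n x'
    have h2 := hB n b'
    have hvn : ∀ ω, ‖(v ω).fst‖ + ‖(v ω).snd‖ ≤ ‖F ω‖ + ε := by
      intro ω
      have h3 : ‖v ω‖ = ‖(v ω).fst‖ + ‖(v ω).snd‖ := WithLp.prod_norm_eq_of_L1 _
      rw [← h3]
      exact (hv2 ω).le
    set A1 := ∑ ω, ‖(v ω).fst‖ with hA1
    set A2 := ∑ ω, ‖(v ω).snd‖ with hA2
    set A3 := ∑ ω : Fin n → Bool, ‖∑ i, sgn (ω i) • b' i‖ with hA3
    set A4 := ∑ ω : Fin n → Bool, ‖∑ i, sgn (ω i) • x' i‖ with hA4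
    have e1 : A4 ≤ A1 + η * (A3 + A2) := by
      rw [hA4, hA1, hA3, hA2, ← Finset.sum_add_distrib, Finset.mul_sum, ← Finset.sum_add_distrib]
      exact Finset.sum_le_sum fun ω _ => hx3 ω
    have e2 : A1 + A2 ≤ ∑ ω, (‖F ω‖ + ε) := by
      rw [hA1, hA2, ← Finset.sum_add_distrib]
      exact Finset.sum_le_sum fun ω _ => hvn ω
    have hA2n : 0 ≤ A2 := Finset.sum_nonneg fun ω _ => norm_nonneg _
    have hA1n : 0 ≤ A1 := Finset.sum_nonneg fun ω _ => norm_nonneg _
    have hA3n : 0 ≤ A3 := Finset.sum_nonneg fun ω _ => norm_nonneg _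
    refine hMink.trans ((add_le_add h1 h2).trans ?_)
    rw [mul_div_assoc', mul_div_assoc', mul_div_assoc', ← add_div]
    refine div_le_div_of_nonneg_right ?_ hpow.le
    have e3 : C * A4 ≤ C * (A1 + η * (K * A2 + A2)) := by
      refine mul_le_mul_of_nonneg_left (e1.trans ?_) hC
      have := mul_le_mul_of_nonneg_left (add_le_add hσ' (le_refl A2)) hη
      linarith
    have e4 : CB * A3 ≤ CB * (K * A2) := mul_le_mul_of_nonneg_left hσ' hCB
    have e5 : (CB * K + C * η * (1 + K)) * A2 ≤ C * A2 := mul_le_mul_of_nonneg_right hcond hA2n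
    have e6 : C * (A1 + A2) ≤ C * ∑ ω, (‖F ω‖ + ε) := mul_le_mul_of_nonneg_left e2 hC
    nlinarith
  · exact LinearMap.mkContinuous_norm_le _ zero_le_one _
  · intro s
    show mk (WithLp.toLp 1 (0, (s : B))) = mk (WithLp.toLp 1 (u s, 0))
    have h1 : (WithLp.toLp 1 (u s, 0) : V) = WithLp.toLp 1 (0, (s : B)) +
        WithLp.toLp 1 (u s, -(s : B)) := by
      rw [← WithLp.toLp_add]
      simp
    rw [h1, map_add, hmk_s, add_zero]
  · intro Z _ _ Ψ v hΨ hv hcomp
    let L : V →ₗ[ℝ] Z := Ψ.toLinearMap ∘ₗ (WithLp.fstₗ 1 ℝ X B) + v.toLinearMap ∘ₗ (WithLp.sndₗ 1 ℝ X B)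
    have hLa : ∀ z : V, L z = Ψ z.fst + v z.snd := fun z => rfl
    have hLN : N ≤ LinearMap.ker L := by
      rintro z ⟨s, rfl⟩
      rw [LinearMap.mem_ker, hLa]
      show Ψ (u s) + v (-(s : B)) = 0
      rw [map_neg, hcomp]
      abel
    have hLb : ∀ z : V, ‖L z‖ ≤ ‖z‖ := by
      intro z
      rw [hLa, WithLp.prod_norm_eq_of_L1]
      refine (norm_add_le _ _).trans (add_le_add ?_ ?_)
      · refine (Ψ.le_opNorm _).trans ?_
        have := mul_le_mul_of_nonneg_right hΨ (norm_nonneg z.fst)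
        rwa [one_mul] at this
      · refine (v.le_opNorm _).trans ?_
        have := mul_le_mul_of_nonneg_right hv (norm_nonneg z.snd)
        rwa [one_mul] at this
    let L' : (V ⧸ N) →ₗ[ℝ] Z := N.liftQ L hLN
    have hL' : ∀ z : V, L' (mk z) = L z := fun z => rfl
    refine ⟨L'.mkContinuous 1 ?_, LinearMap.mkContinuous_norm_le _ zero_le_one _, ?_⟩
    · intro y
      rw [one_mul]
      refine le_of_forall_pos_le_add fun ε hε => ?_
      obtain ⟨z, hz, hz2⟩ := hmk_lt y ε hε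
      rw [← hz, hL', hz]
      exact (hLb z).trans hz2.le
    · intro x
      show L' (mk (WithLp.toLp 1 (x, 0))) = Ψ x
      rw [hL', hLa]
      simp

end Pool.Agent.Helper49.BAP
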