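import Pool.Agent.Helper49.BAP.EEof
import Pool.Agent.Helper34.BAP.ED

/-! Part EE of BAP2: the system for `p = ∞`. -/

open MeasureTheory
open scoped ENNReal NNReal

set_option maxSynthPendingDepth 3

namespace Pool.Agent.Helper49.BAP

open Pool.Agent.BAPp (sgn)
open Pool.Agent.Helper37.BP

theorem sysTop (p q r : ℝ) (hpq : p.HolderConjugate q) (hr : 2 < r) (hrp : r < p)
    [Fact (1 ≤ ENNReal.ofReal p)] [Fact (1 ≤ ENNReal.ofReal r)] :
    ∃ (t : Tree) (D : Sys Gam Ix) (Φ : E0 t r D →L[ℝ] XX D), ‖Φ‖ ≤ 1 ∧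
      OutDataTop p D Φ :=
  sysTop_of (fun t p q r hpq hr hrp _ n a =>
    Pool.Agent.Helper34.BAP.yL_bound t p q r hpq hr hrp n a) p q r hpq hr hrp

end Pool.Agent.Helper49.BAP
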