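import Pool.Agent.Helper49.BAP.Num2
import Pool.Agent.Helper5.BAP.EA
import Pool.Agent.Helper5.BAP.EB
import Pool.Agent.Helper37.BP.Comb2
import Pool.Agent.Helper88.BAP.SEof
import Pool.Agent.Helper31.BAP.SA

/-! Part EE of BAP2: assembly of the system for `p = ∞` (from the norm bound ED). -/

open MeasureTheory
open scoped ENNReal NNReal

set_option maxSynthPendingDepth 3

namespace Pool.Agent.Helper49.BAP

open Pool.Agent.BAPp (sgn)
open Pool.Agent.Helper37.BP Pool.Agent.Helper88.BAP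

/-- the statement of part ED -/
def S_ED : Prop := ∀ (t : Tree) (p q r : ℝ) (_ : p.HolderConjugate q) (_ : 2 ≤ r) (_ : r ≤ p)
    [Fact (1 ≤ ENNReal.ofReal r)] (n : ℕ) (a : Sg (n + 2) → (Sg (n + 2) → Bool) → ℝ),
    ‖∑ j0, ∑ θ : Sg (n + 2) → Bool, a j0 θ • ∑ j ∈ t.B (n + 2) j0, sgn (θ j) • yL t r n j‖ ≤
      2 ^ 30 * (t.m (n + 2) * 2 ^ (2 ^ (n + 2))) ^ (1 / q) * (t.b (n + 2) : ℝ) ^ (1 / 2 : ℝ) *
      (2 ^ (n + 2) / t.m (n + 2)) ^ (1 / r - 1 / p) *
      (∑ j0, ∑ θ : Sg (n + 2) → Bool, |a j0 θ| ^ p) ^ (1 / p)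

lemma hat_zero' (t : Tree) (r : ℝ) (γ : Gam) : hat t r (0 : Lam r) γ = 0 := by
  have := hat_smul t r 0 (0 : Lam r) γ
  rw [zero_smul, zero_mul] at this
  exact this

/-- `hat` as a linear map -/
noncomputable def hatL (t : Tree) (r : ℝ) (γ : Gam) : Lam r →ₗ[ℝ] ℝ where
  toFun F := hat t r F γ
  map_add' F G := hat_add t r F G γ
  map_smul' c F := hat_smul t r c F γ

section

variable (t : Tree) (s p q r θ : ℝ) [Fact (1 ≤ ENNReal.ofReal p)] [Fact (1 ≤ ENNReal.ofReal r)]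
  (D : Sys Gam Ix)

/-- the diagonal -/
noncomputable def ddT (K : ℕ) (g : GG) : ℝ := if K ≤ g.1 then dT t s p q r θ g.1 else 0

/-- the level operator -/
noncomputable def PL (yE : ∀ n, Sg (n + 2) → E0 t r D) (n : ℕ) :
    lp (fun _ : GG => ℝ) (ENNReal.ofReal p) →ₗ[ℝ] E0 t r D where
  toFun a := (-(kap t p q r θ n)) • ∑ j0 : Sg (n + 2), ∑ ϑ : Sg (n + 2) → Bool,
    a (⟨n, (j0, ϑ)⟩ : GG) • ∑ j ∈ t.B (n + 2) j0, sgn (ϑ j) • yE n j
  map_add' a b := by
    rw [← smul_add]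
    congr 1
    rw [← Finset.sum_add_distrib]
    refine Finset.sum_congr rfl fun j0 _ => ?_
    rw [← Finset.sum_add_distrib]
    refine Finset.sum_congr rfl fun ϑ _ => ?_
    rw [← add_smul]
    rfl
  map_smul' c a := by
    rw [RingHom.id_apply, smul_comm c]
    congr 1
    rw [Finset.smul_sum]
    refine Finset.sum_congr rfl fun j0 _ => ?_
    rw [Finset.smul_sum]
    refine Finset.sum_congr rfl fun ϑ _ => ?_
    rw [smul_smul]
    rfl

end

/-- finite partial sums of the `lp` norm -/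
lemma level_le_norm (p : ℝ) (hp : 1 ≤ p) [Fact (1 ≤ ENNReal.ofReal p)]
    (a : lp (fun _ : GG => ℝ) (ENNReal.ofReal p)) (n : ℕ) :
    (∑ j0 : Sg (n + 2), ∑ ϑ : Sg (n + 2) → Bool, |a (⟨n, (j0, ϑ)⟩ : GG)| ^ p) ^ (1 / p) ≤ ‖a‖ := by
  have hp0 : 0 < p := by linarith
  have htr : (ENNReal.ofReal p).toReal = p := ENNReal.toReal_ofReal hp0.le
  have h1 := lp.sum_rpow_le_norm_rpow (p := ENNReal.ofReal p) (by rw [htr]; exact hp0) a
    ((Finset.univ : Finset (Sg (n + 2) × (Sg (n + 2) → Bool))).map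
      ⟨fun g => (⟨n, g⟩ : GG), fun g g' h => by simpa using h⟩)
  rw [Finset.sum_map, htr] at h1
  simp only [Function.Embedding.coeFn_mk, Real.norm_eq_abs] at h1
  rw [Fintype.sum_prod_type] at h1
  rw [one_div, Real.rpow_inv_le_iff_of_pos (Finset.sum_nonneg fun _ _ =>
    Finset.sum_nonneg fun _ _ => Real.rpow_nonneg (abs_nonneg _) _) (norm_nonneg _) hp0]
  exact h1

theorem sysTop_of (hED : S_ED) (p q r : ℝ) (hpq : p.HolderConjugate q) (hr : 2 < r) (hrp : r < p)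
    [Fact (1 ≤ ENNReal.ofReal p)] [Fact (1 ≤ ENNReal.ofReal r)] :
    ∃ (t : Tree) (D : Sys Gam Ix) (Φ : E0 t r D →L[ℝ] XX D), ‖Φ‖ ≤ 1 ∧
      OutDataTop p D Φ := by
  obtain ⟨t, ht⟩ := Pool.Agent.Helper37.BP.tree_exists2
  obtain ⟨s, θ, hs0, hs1, hθ0, hθ1, A, ρ, hA, hρ0, hρ1, hen⟩ := enT_le hpq hr hrp t ht
  obtain ⟨D, hDρ, hDv⟩ := Pool.Agent.Helper31.BAP.sys_exists t s hs0 hs1
  have hr1 : 1 ≤ r := by linarith
  have hp0 : 0 < p := by linarith
  have hp1 : 1 ≤ p := by linarith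
  obtain ⟨Φ, hΦ1, hΦ⟩ := Pool.Agent.Helper5.BAP.Phi_exists t r hr1 D
  refine ⟨t, D, Φ, hΦ1, ?_⟩
  have hclosed : IsClosed (E0 t r D : Set (Lam r)) := Pool.Agent.Helper5.BAP.E0_closed t r D
  haveI : CompleteSpace (E0 t r D) := hclosed.completeSpace_coe
  have hzmem : ∀ n i, zL t r n i ∈ E0 t r D := fun n i =>
    Pool.Agent.Helper5.BAP.zL_mem t s r hs0 hs1 hr1 D hDρ hDv n i
  have hymem : ∀ n (j : Sg (n + 2)), yL t r n j ∈ E0 t r D := fun n j =>
    Submodule.sub_mem _ (Submodule.smul_mem _ _ (hzmem _ _)) (hzmem _ _)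
  let yE : ∀ n, Sg (n + 2) → E0 t r D := fun n j => ⟨yL t r n j, hymem n j⟩
  -- the level operators
  have hPb : ∀ n (a : lp (fun _ : GG => ℝ) (ENNReal.ofReal p)),
      ‖PL t p q r θ D yE n a‖ ≤ ww θ n * ‖a‖ := by
    intro n a
    have h1 : ‖PL t p q r θ D yE n a‖ = kap t p q r θ n *
        ‖∑ j0 : Sg (n + 2), ∑ ϑ : Sg (n + 2) → Bool,
          a (⟨n, (j0, ϑ)⟩ : GG) • ∑ j ∈ t.B (n + 2) j0, sgn (ϑ j) • yL t r n j‖ := by
      show ‖(-(kap t p q r θ n)) • ∑ j0 : Sg (n + 2), ∑ ϑ : Sg (n + 2) → Bool,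
        a (⟨n, (j0, ϑ)⟩ : GG) • ∑ j ∈ t.B (n + 2) j0, sgn (ϑ j) • yE n j‖ = _
      rw [norm_smul, norm_neg, Real.norm_of_nonneg (kap_pos hθ0 hθ1 n).le]
      congr 1
      rw [Submodule.coe_norm]
      congr 1
      simp only [Submodule.coe_sum, Submodule.coe_smul, yE]
    rw [h1]
    have h2 := hED t p q r hpq hr.le hrp.le n (fun j0 ϑ => a (⟨n, (j0, ϑ)⟩ : GG))
    have h3 := level_le_norm p hp1 a n
    have hQ := QQ_pos (t := t) (p := p) (q := q) (r := r) (n + 2)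
    have hk := kap_pos (t := t) (p := p) (q := q) (r := r) hθ0 hθ1 n
    calc kap t p q r θ n * _ ≤ kap t p q r θ n * (QQ t p q r (n + 2) * ‖a‖) := by
          refine mul_le_mul_of_nonneg_left (h2.trans ?_) hk.le
          exact mul_le_mul_of_nonneg_left h3 hQ.le
      _ = ww θ n * ‖a‖ := by
          unfold kap
          field_simp
  let P : ℕ → (lp (fun _ : GG => ℝ) (ENNReal.ofReal p) →L[ℝ] E0 t r D) := fun n =>
    (PL t p q r θ D yE n).mkContinuous (ww θ n) (hPb n)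
  have hPn : ∀ n, ‖P n‖ ≤ ww θ n := fun n =>
    LinearMap.mkContinuous_norm_le _ (ww_pos hθ0 hθ1 n).le _
  have hwsum : HasSum (ww θ) 1 := by
    have h := (hasSum_geometric_of_lt_one hθ0.le hθ1).mul_left (1 - θ)
    rw [mul_inv_cancel₀ (by linarith)] at h
    exact h
  have hPs : Summable P := Summable.of_norm_bounded hwsum.summable hPn
  let R : lp (fun _ : GG => ℝ) (ENNReal.ofReal p) →L[ℝ] E0 t r D := ∑' n, P n
  have hR1 : ‖R‖ ≤ 1 := tsum_of_norm_bounded hwsum hPn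
  have hRa : ∀ a, HasSum (fun n => P n a) (R a) := fun a =>
    (ContinuousLinearMap.apply ℝ (E0 t r D) a).hasSum hPs.hasSum
  -- the functionals `hat`
  let H : Gam → (E0 t r D →L[ℝ] ℝ) := fun γ =>
    ((hatL t r γ).comp (E0 t r D).subtype).mkContinuous 1 (fun F => by
      rw [one_mul]
      exact Pool.Agent.Helper5.BAP.hat_le t r hr1 D F F.2 γ)
  have hHz : ∀ γ (F : E0 t r D), H γ F = hat t r (F : Lam r) γ := fun γ F => rfl
  have hinj : ∀ F : E0 t r D, (∀ γ, H γ F = 0) → F = 0 := fun F hF =>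
    Subtype.ext (Pool.Agent.Helper5.BAP.hat_inj t r hr1 D F F.2 hF)
  intro ε hε
  -- the size of the diagonal
  set r' := Real.sqrt ρ with hr'
  have hr'0 : 0 < r' := Real.sqrt_pos.2 hρ0
  have hr'1 : r' < 1 := by rw [hr', Real.sqrt_lt' one_pos]; simpa using hρ1
  have hrr : r' * r' = ρ := Real.mul_self_sqrt hρ0.le
  have h1r' : 0 < 1 - r' := by linarith
  obtain ⟨K, hK⟩ := exists_pow_lt_of_lt_one (y := r') (x := ε ^ p / (A * (1 - r')⁻¹))
    (by positivity) hr'1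
  have hlev : ∀ n, ∑ g : Sg (n + 2) × (Sg (n + 2) → Bool), ddT t s p q r θ K ⟨n, g⟩ ^ p =
      if K ≤ n then 2 ^ (n + 2) * 2 ^ (2 ^ (n + 2)) * dT t s p q r θ n ^ p else 0 := by
    intro n
    unfold ddT
    simp only
    split_ifs with h
    · rw [Finset.sum_const, nsmul_eq_mul, Finset.card_univ, card_lev]
    · rw [Real.zero_rpow hp0.ne', Finset.sum_const_zero]
  have hbd : ∀ n, (if K ≤ n then 2 ^ (n + 2) * 2 ^ (2 ^ (n + 2)) * dT t s p q r θ n ^ p else 0)
      ≤ A * r' ^ K * r' ^ n := by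
    intro n
    split_ifs with h
    · refine (hen n).trans ?_
      have h1 : ρ ^ n ≤ r' ^ K * r' ^ n := by
        calc ρ ^ n = r' ^ n * r' ^ n := by rw [← hrr, mul_pow]
          _ ≤ r' ^ K * r' ^ n := by
            refine mul_le_mul_of_nonneg_right ?_ (by positivity)
            exact pow_le_pow_of_le_one hr'0.le hr'1.le h
      calc A * ρ ^ n ≤ A * (r' ^ K * r' ^ n) := mul_le_mul_of_nonneg_left h1 hA.le
        _ = A * r' ^ K * r' ^ n := by ring
    · positivity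
  have hdpos : ∀ n, 0 < dT t s p q r θ n := fun n => dT_pos hs0 hs1 hθ0 hθ1 n
  have hdd0 : ∀ g, 0 ≤ ddT t s p q r θ K g := by
    intro g
    unfold ddT
    split_ifs
    · exact (hdpos _).le
    · exact le_rfl
  have hnn : ∀ n, 0 ≤ (if K ≤ n then
      2 ^ (n + 2) * 2 ^ (2 ^ (n + 2)) * dT t s p q r θ n ^ p else 0) := by
    intro n
    split_ifs with h
    · have := hdpos n
      positivity
    · exact le_rfl
  have hgeo : Summable fun n : ℕ => A * r' ^ K * r' ^ n :=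
    (summable_geometric_of_lt_one hr'0.le hr'1).mul_left _
  have hsn : Summable fun n => (if K ≤ n then
      2 ^ (n + 2) * 2 ^ (2 ^ (n + 2)) * dT t s p q r θ n ^ p else 0) :=
    Summable.of_nonneg_of_le hnn hbd hgeo
  have hds : Summable fun g : GG => ddT t s p q r θ K g ^ p := by
    rw [summable_sigma_of_nonneg fun g => Real.rpow_nonneg (hdd0 g) p]
    refine ⟨fun n => (hasSum_fintype _).summable, ?_⟩
    refine hsn.congr fun n => ?_
    rw [tsum_fintype, hlev]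
  have hdt : ∑' g : GG, ddT t s p q r θ K g ^ p = ∑' n, (if K ≤ n then
      2 ^ (n + 2) * 2 ^ (2 ^ (n + 2)) * dT t s p q r θ n ^ p else 0) := by
    rw [sigma_tsum hds]
    exact tsum_congr fun n => hlev n
  -- nodes
  have hcard : Fintype.card (Sg K) = 2 ^ K := card_Sg K
  let e : Fin (2 ^ K) ≃ Sg K := (Fintype.equivFinOfCardEq hcard).symm
  refine ⟨2 ^ K, fun i => phi t s K (e i), fun i => ⟨zL t r K (e i), hzmem K (e i)⟩, GG,
    inferInstance, eta t s p q, ddT t s p q r θ K, R, fun i => phi_supp t s K _, ?_, ?_,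
    fun g => eta_supp t s p q g, ?_, hR1, hdd0, hds, ?_, ?_, ?_⟩
  · intro i j
    simp only [hΦ]
    exact (hzmem K (e i)).2 j
  · simp only [hΦ]
    rw [hDρ]
    have h1 : ∀ i, ip (rho s) (phi t s K (e i)) (fun γ => hat t r (zL t r K (e i)) γ) = 1 / 2 ^ K := by
      intro i
      have h2 : (fun γ => hat t r (zL t r K (e i)) γ) = zz t K (e i) :=
        Pool.Agent.Helper5.BAP.hat_zL t r hr1 K (e i)
      rw [h2]
      exact ip_phi_zz t s (fun k h h' => Pool.Agent.Helper31.BAP.ip_xi_ev t s hs0 hs1 k h h')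
        (fun k k' hk h h' => Pool.Agent.Helper31.BAP.ip_xi_ev_ne t s k k' hk h h') K (e i)
    rw [Finset.sum_congr rfl fun i _ => h1 i]
    rw [Finset.sum_const, Finset.card_univ, Fintype.card_fin, nsmul_eq_mul]
    push_cast
    field_simp
  · intro g
    rw [hDρ]
    have h1 := Pool.Agent.Helper92.BAP.eta_bound t s p hs0 hs1 (by linarith) (g.1 + 2) g.2.1 g.2.2
    have hN := NN_pos (t := t) (p := p) (q := q) hs0 hs1 (g.1 + 2)
    have h2 : ∀ γ, rho s γ * |eta t s p q g γ| ^ p = (NN t s p q (g.1 + 2))⁻¹ ^ p *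
        (rho s γ * |∑ j ∈ t.B (g.1 + 2) g.2.1, sgn (g.2.2 j) * xi t s (g.1 + 2) j γ| ^ p) := by
      intro γ
      unfold eta
      rw [abs_mul, abs_of_pos (inv_pos.2 hN), Real.mul_rpow (inv_pos.2 hN).le (abs_nonneg _)]
      ring
    rw [tsum_congr h2, tsum_mul_left, ← NN_pow (t := t) hpq hs0 hs1 (g.1 + 2)]
    exact mul_le_mul_of_nonneg_left h1 (Real.rpow_nonneg (inv_pos.2 hN).le p)
  · refine hds.tsum_pos (fun g => Real.rpow_nonneg (hdd0 g) p)
      ⟨K, (fun _ => false, fun _ => false)⟩ ?_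
    refine Real.rpow_pos_of_pos ?_ p
    unfold ddT
    rw [if_pos le_rfl]
    exact hdpos _
  · rw [hdt]
    refine (hsn.tsum_le_tsum hbd hgeo).trans ?_
    rw [tsum_mul_left, tsum_geometric_of_lt_one hr'0.le hr'1]
    rw [lt_div_iff₀ (by positivity)] at hK
    calc A * r' ^ K * (1 - r')⁻¹ = r' ^ K * (A * (1 - r')⁻¹) := by ring
      _ ≤ ε ^ p := hK.le
  · intro y hy a ha
    rw [hDρ] at hy ha ⊢
    rw [hDv] at hy
    have hyv : ∀ n (i : Sg n), ip (rho s) (vv t s n i) y = 0 := by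
      intro n i
      have h1 := hy ⟨n, i⟩
      have hnv : 0 < nv t s n := by
        have h2 : (0 : ℝ) < t.m (n + 1) := by exact_mod_cast Pool.Agent.Helper88.BAP.m_pos t (n + 1)
        have h3 : (0 : ℝ) < t.m (n + 2) := by exact_mod_cast Pool.Agent.Helper88.BAP.m_pos t (n + 2)
        have h4 := Pool.Agent.Helper88.BAP.rp_pos hs0 hs1 (n + 1)
        have h5 := Pool.Agent.Helper88.BAP.rp_pos hs0 hs1 (n + 2)
        unfold nv
        positivity
      have h2 : vhat t s ⟨n, i⟩ = fun γ => (Real.sqrt (nv t s n))⁻¹ * vv t s n i γ := by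
        funext γ
        unfold vhat
        simp only
        rw [div_eq_inv_mul]
      rw [h2, ip_smul_left] at h1
      rcases mul_eq_zero.1 h1 with h | h
      · exact absurd h (inv_ne_zero (Real.sqrt_pos.2 hnv).ne')
      · exact h
    rw [← sub_eq_zero]
    refine hinj _ fun γ => ?_
    rw [map_sub, sub_eq_zero]
    have htel := telescope t s hs0 hs1 y hyv K γ
    -- right hand side
    have hRHS : H γ (∑ i : Fin (2 ^ K), ip (rho s) (phi t s K (e i)) y •
        (⟨zL t r K (e i), hzmem K (e i)⟩ : E0 t r D)) =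
        ∑ i : Sg K, ((1 / 2 ^ K) * ((1 / 2) * ∑ c, sgn c *
          ip (rho s) (xi t s (K + 1) (ch i c)) y)) * zz t K i γ := by
      rw [map_sum, ← e.sum_comp]
      refine Finset.sum_congr rfl fun i _ => ?_
      rw [map_smul, hHz, smul_eq_mul, ip_phi]
      congr 1
      exact congrFun (Pool.Agent.Helper5.BAP.hat_zL t r hr1 K (e i)) γ
    rw [hRHS, htel]
    -- left hand side
    have h1 : HasSum (fun n => H γ (P n a)) (H γ (R a)) := (H γ).hasSum (hRa a)
    rw [← h1.tsum_eq]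
    refine tsum_congr fun n => ?_
    have h2 : H γ (P n a) = -(kap t p q r θ n) * ∑ j0 : Sg (n + 2), ∑ ϑ : Sg (n + 2) → Bool,
        a (⟨n, (j0, ϑ)⟩ : GG) * ∑ j ∈ t.B (n + 2) j0, sgn (ϑ j) * yy t n j γ := by
      show H γ ((-(kap t p q r θ n)) • ∑ j0 : Sg (n + 2), ∑ ϑ : Sg (n + 2) → Bool,
        a (⟨n, (j0, ϑ)⟩ : GG) • ∑ j ∈ t.B (n + 2) j0, sgn (ϑ j) • yE n j) = _
      rw [map_smul, smul_eq_mul, map_sum]
      congr 1
      refine Finset.sum_congr rfl fun j0 _ => ?_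
      rw [map_sum]
      refine Finset.sum_congr rfl fun ϑ _ => ?_
      rw [map_smul, smul_eq_mul, map_sum]
      congr 1
      refine Finset.sum_congr rfl fun j _ => ?_
      rw [map_smul, smul_eq_mul, hHz]
      congr 1
      exact congrFun (Pool.Agent.Helper5.BAP.hat_yL t r hr1 n j) γ
    rw [h2]
    by_cases hn : K ≤ n
    · rw [if_pos hn]
      rw [neg_mul, Finset.mul_sum, Finset.mul_sum]
      congr 1
      refine Finset.sum_congr rfl fun j0 _ => ?_
      rw [Finset.mul_sum, Finset.mul_sum]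
      refine Finset.sum_congr rfl fun ϑ _ => ?_
      rw [ha, ip_eta]
      unfold ddT
      simp only
      rw [if_pos hn]
      have hN := NN_pos (t := t) (p := p) (q := q) hs0 hs1 (n + 2)
      have hc := kap_pos (t := t) (p := p) (q := q) (r := r) hθ0 hθ1 n
      unfold dT Wn
      field_simp
    · rw [if_neg hn]
      have h3 : ∀ (j0 : Sg (n + 2)) (ϑ : Sg (n + 2) → Bool), a (⟨n, (j0, ϑ)⟩ : GG) = 0 := by
        intro j0 ϑ
        rw [ha]
        unfold ddT
        rw [if_neg hn, zero_mul]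
      simp only [h3, zero_mul, Finset.sum_const_zero, mul_zero]

end Pool.Agent.Helper49.BAP
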