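import Pool.Agent.Helper88.BAP.Num
import Pool.Agent.Helper37.BP.Defs2

/-! The numbers of the concrete system for `p = ∞` (part EE of BAP2). -/

open MeasureTheory
open scoped ENNReal NNReal

set_option maxSynthPendingDepth 3

namespace Pool.Agent.Helper49.BAP

open Pool.Agent.BAPp (sgn)
open Pool.Agent.Helper37.BP Pool.Agent.Helper88.BAP

section

variable (t : Tree) (s p q r θ : ℝ)

/-- the norm of the level operator -/
noncomputable def QQ (k : ℕ) : ℝ :=
  2 ^ 30 * (t.m k * 2 ^ (2 ^ k)) ^ (1 / q) * (t.b k : ℝ) ^ (1 / 2 : ℝ) *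
      (2 ^ k / t.m k) ^ (1 / r - 1 / p)

/-- weights -/
noncomputable def ww (n : ℕ) : ℝ := (1 - θ) * θ ^ n

/-- normalisation -/
noncomputable def kap (n : ℕ) : ℝ := ww θ n / QQ t p q r (n + 2)

/-- the diagonal -/
noncomputable def dT (n : ℕ) : ℝ := Wn t (n + 2) * NN t s p q (n + 2) / kap t p q r θ n

variable {t s p q r θ}

lemma QQ_pos (k : ℕ) : 0 < QQ t p q r k := by
  have h1 : (0 : ℝ) < t.b k := by exact_mod_cast b_pos t k
  have h2 : (0 : ℝ) < t.m k := by exact_mod_cast m_pos t k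
  unfold QQ
  positivity

lemma ww_pos (h0 : 0 < θ) (h1 : θ < 1) (n : ℕ) : 0 < ww θ n := by
  have : 0 < 1 - θ := by linarith
  unfold ww
  positivity

lemma kap_pos (h0 : 0 < θ) (h1 : θ < 1) (n : ℕ) : 0 < kap t p q r θ n :=
  div_pos (ww_pos h0 h1 n) (QQ_pos _)

lemma dT_pos (hs0 : 0 < s) (hs1 : s < 1) (h0 : 0 < θ) (h1 : θ < 1) (n : ℕ) :
    0 < dT t s p q r θ n := by
  have h2 := NN_pos (t := t) (p := p) (q := q) hs0 hs1 (n + 2)
  have h3 := kap_pos (t := t) (p := p) (q := q) (r := r) h0 h1 n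
  have h4 := Wn_pos (t := t) (n + 2)
  unfold dT
  positivity

/-- the size of the diagonal -/
theorem enT_le (hpq : p.HolderConjugate q) (hr : 2 < r) (hrp : r < p) (t : Tree)
    (ht : ∀ k, 2 ^ (11 * k) ≤ 2 ^ 180 * t.m k ^ 12) :
    ∃ s θ : ℝ, 0 < s ∧ s < 1 ∧ 0 < θ ∧ θ < 1 ∧ ∃ A ρ : ℝ, 0 < A ∧ 0 < ρ ∧ ρ < 1 ∧
      ∀ n, 2 ^ (n + 2) * 2 ^ (2 ^ (n + 2)) * dT t s p q r θ n ^ p ≤ A * ρ ^ n := by
  have hp0 : 0 < p := by linarith
  have hr0 : 0 < r := by linarith
  have hq0 : 0 < q := hpq.symm.pos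
  have hpq' := hpq.inv_add_inv_eq_one
  set v := q⁻¹ with hv
  have hv0 : 0 < v := by positivity
  have hpi : p⁻¹ = 1 - v := by linarith
  set x := r⁻¹ with hx
  have hx12 : x < 1 / 2 := by
    rw [hx, inv_lt_comm₀ hr0 (by norm_num)]
    norm_num
    exact hr
  have hpx : p⁻¹ < x := by
    rw [hx]
    exact inv_strictAnti₀ hr0 hrp
  have hl2 : 0 < Real.log 2 := Real.log_pos (by norm_num)
  set δ := (1 / 2 - x) * Real.log 2 / 12 with hδ
  have hδ0 : 0 < δ := by
    have : 0 < 1 / 2 - x := by linarith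
    positivity
  set ls := -(δ / (4 * v)) with hls
  have hls0 : ls < 0 := by
    have : 0 < δ / (4 * v) := by positivity
    linarith
  set s := Real.exp ls with hs
  have hs0 : 0 < s := Real.exp_pos _
  have hs1 : s < 1 := by rw [hs, Real.exp_lt_one_iff]; exact hls0
  have h1s : 0 < 1 - s := by linarith
  set lt := -(δ / 4) with hlt
  set θ := Real.exp lt with hθ
  have hθ0 : 0 < θ := Real.exp_pos _
  have hθ1 : θ < 1 := by rw [hθ, Real.exp_lt_one_iff]; linarith
  have h1θ : 0 < 1 - θ := by linarith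
  set C0 := 30 * Real.log 2 with hC0
  set A' := p * (C0 - v * Real.log (1 - s) - Real.log (1 - θ) + (3 / 2) * (1 / 2 - p⁻¹) * Real.log 2 +
    15 * (x - p⁻¹) * Real.log 2) with hA'
  refine ⟨s, θ, hs0, hs1, hθ0, hθ1, Real.exp A', Real.exp (-(p * δ / 2)), Real.exp_pos _,
    Real.exp_pos _, by rw [Real.exp_lt_one_iff]; have := mul_pos hp0 hδ0; linarith,
    fun n => ?_⟩
  set k := n + 2 with hk
  have hb : (0 : ℝ) < t.b k := by exact_mod_cast b_pos t k
  have hm : (0 : ℝ) < t.m k := by exact_mod_cast m_pos t k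
  have hrr := rp_pos hs0 hs1 k
  set β := Real.log (t.b k) with hβ
  set μ := Real.log (t.m k) with hμ
  set ρ := Real.log (rp s k) with hρ
  set E := (2 : ℝ) ^ k * Real.log 2 with hE
  set κ := (k : ℝ) * Real.log 2 with hκ
  have eb : (t.b k : ℝ) = Real.exp β := (Real.exp_log hb).symm
  have em : (t.m k : ℝ) = Real.exp μ := (Real.exp_log hm).symm
  have er : rp s k = Real.exp ρ := (Real.exp_log hrr).symm
  have e2k : (2 : ℝ) ^ k = Real.exp κ := by
    rw [hκ, ← Real.log_pow, Real.exp_log (by positivity)]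
  have e22k : (2 : ℝ) ^ (2 ^ k) = Real.exp E := by
    have h1 : E = Real.log ((2 : ℝ) ^ (2 ^ k)) := by
      rw [Real.log_pow]
      push_cast
      rfl
    rw [h1, Real.exp_log (by positivity)]
  have e30 : (2 : ℝ) ^ 30 = Real.exp C0 := by
    rw [hC0]
    have : (30 : ℝ) * Real.log 2 = Real.log (2 ^ 30) := by rw [Real.log_pow]; norm_num
    rw [this, Real.exp_log (by positivity)]
  have hρ' : ρ = Real.log (1 - s) + k * ls - κ := by
    rw [hρ]
    unfold rp
    rw [Real.log_div (by positivity) (by positivity), Real.log_mul h1s.ne' (by positivity),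
      Real.log_pow, Real.log_pow, hs, Real.log_exp]
  have eN : NN t s p q k = Real.exp (β * p⁻¹ - (μ + ρ) * v) := by
    unfold NN
    rw [eb, em, er, ← Real.exp_add, ← Real.exp_mul, ← Real.exp_mul, ← Real.exp_add, one_div,
      one_div]
    congr 1
    rw [← hv]
    ring
  have eQ : QQ t p q r k = Real.exp (C0 + (μ + E) * v + β / 2 + (κ - μ) * (x - p⁻¹)) := by
    unfold QQ
    rw [e22k, em, eb, e2k, e30, ← Real.exp_sub, ← Real.exp_add, ← Real.exp_mul, ← Real.exp_mul,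
      ← Real.exp_mul, ← Real.exp_add, ← Real.exp_add, ← Real.exp_add, one_div, one_div, one_div,
      ← hv, ← hx]
    congr 1
    ring
  have eW : Wn t k = Real.exp (-(κ + β + E)) := by
    unfold Wn
    rw [e2k, e22k, eb, ← Real.exp_add, ← Real.exp_add, one_div, ← Real.exp_neg]
  have ew : ww θ n = Real.exp (Real.log (1 - θ) + n * lt) := by
    unfold ww
    rw [Real.exp_add, Real.exp_log h1θ, hθ, ← Real.exp_nat_mul]
  have ed : dT t s p q r θ n = Real.exp (-(κ + β + E) + (β * p⁻¹ - (μ + ρ) * v) -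
      ((Real.log (1 - θ) + n * lt) - (C0 + (μ + E) * v + β / 2 + (κ - μ) * (x - p⁻¹)))) := by
    unfold dT kap
    rw [← hk, eN, eQ, eW, ew, ← Real.exp_add, ← Real.exp_sub, ← Real.exp_sub]
  rw [ed, e2k, e22k, ← Real.exp_mul, ← Real.exp_add, ← Real.exp_add, ← Real.exp_nat_mul,
    ← Real.exp_add]
  refine Real.exp_le_exp.2 ?_
  have hpv : p * v = p - 1 := by
    have h1 : p * p⁻¹ = 1 := mul_inv_cancel₀ hp0.ne'
    rw [hpi] at h1
    linarith
  have hkey : κ + E + (-(κ + β + E) + (β * p⁻¹ - (μ + ρ) * v) -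
      ((Real.log (1 - θ) + n * lt) - (C0 + (μ + E) * v + β / 2 + (κ - μ) * (x - p⁻¹)))) * p =
      p * (C0 - v * (Real.log (1 - s) + k * ls) - (Real.log (1 - θ) + n * lt) -
        β * (1 / 2 - p⁻¹) + (κ - μ) * (x - p⁻¹)) := by
    rw [hρ']
    have h1 : p * p⁻¹ = 1 := mul_inv_cancel₀ hp0.ne'
    linear_combination (E + κ) * hpv
  rw [hkey]
  -- the size of `b`
  have hbge : κ ≤ 18 * Real.log 2 + 12 * β := by
    have h1 := t.b_ge k
    have h2 : (2 : ℝ) ^ k ≤ 2 ^ 18 * (t.b k : ℝ) ^ 12 := by exact_mod_cast h1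
    have h3 := Real.log_le_log (by positivity) h2
    rw [Real.log_mul (by positivity) (by positivity), Real.log_pow, Real.log_pow,
      Real.log_pow] at h3
    push_cast at h3
    exact h3
  have hmge : 11 * κ ≤ 180 * Real.log 2 + 12 * μ := by
    have h1 := ht k
    have h2 : (2 : ℝ) ^ (11 * k) ≤ 2 ^ 180 * (t.m k : ℝ) ^ 12 := by exact_mod_cast h1
    have h3 := Real.log_le_log (by positivity) h2
    rw [Real.log_mul (by positivity) (by positivity), Real.log_pow, Real.log_pow,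
      Real.log_pow] at h3
    push_cast at h3
    rw [hκ]
    linarith
  have h4 : -(β * (1 / 2 - p⁻¹)) ≤ (18 * Real.log 2 - κ) / 12 * (1 / 2 - p⁻¹) := by
    have h5 : 0 ≤ 1 / 2 - p⁻¹ := by linarith
    nlinarith
  have h5 : (κ - μ) * (x - p⁻¹) ≤ (κ + 180 * Real.log 2) / 12 * (x - p⁻¹) := by
    have h5 : 0 ≤ x - p⁻¹ := by linarith
    nlinarith
  have h6 : v * (k * ls) = -(k * δ / 4) := by
    rw [hls]
    field_simp
  have h7 : (n : ℝ) * lt = -(n * δ / 4) := by rw [hlt]; ring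
  have hkn : (k : ℝ) = n + 2 := by rw [hk]; push_cast; ring
  have h8 : κ / 12 * (1 / 2 - x) = k * δ := by rw [hκ, hδ]; ring
  have hfin : C0 - v * (Real.log (1 - s) + k * ls) - (Real.log (1 - θ) + n * lt) -
        β * (1 / 2 - p⁻¹) + (κ - μ) * (x - p⁻¹) ≤
      (C0 - v * Real.log (1 - s) - Real.log (1 - θ) + (3 / 2) * (1 / 2 - p⁻¹) * Real.log 2 +
    15 * (x - p⁻¹) * Real.log 2) + n * (-(δ / 2)) := by
    have h9 : v * (Real.log (1 - s) + k * ls) = v * Real.log (1 - s) + v * (k * ls) := by ring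
    rw [h9, h6, h7]
    have h10 : (18 * Real.log 2 - κ) / 12 * (1 / 2 - p⁻¹) + (κ + 180 * Real.log 2) / 12 * (x - p⁻¹) =
      (3 / 2) * (1 / 2 - p⁻¹) * Real.log 2 + 15 * (x - p⁻¹) * Real.log 2 -
        κ / 12 * (1 / 2 - x) := by ring
    rw [h8, hkn] at h10
    rw [hkn]
    nlinarith [hδ0]
  calc _ ≤ p * ((C0 - v * Real.log (1 - s) - Real.log (1 - θ) +
        (3 / 2) * (1 / 2 - p⁻¹) * Real.log 2 + 15 * (x - p⁻¹) * Real.log 2) + n * (-(δ / 2))) :=
        mul_le_mul_of_nonneg_left hfin hp0.le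
    _ = A' + n * -(p * δ / 2) := by rw [hA']; ring

end

end Pool.Agent.Helper49.BAP
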